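import Mathlib
import Pool.Agent.NearOne652.Bound

set_option autoImplicit false

open Finset

namespace Pool.Agent.Results.MP_c50dba_nt.NearOneBounded

open Pool.Agent.NearOne652

/-- No polynomial relation of degree `≤ δ` and height `≤ B` between `p`-adic logarithms of algebraic
numbers that are very close to `1`. -/
theorem result (p : ℕ) [Fact p.Prime] (L : PadicAlgCl p → PadicAlgCl p)
    (hL : ∀ z : PadicAlgCl p, ‖z‖ < 1 →
      HasSum (fun n : ℕ => (-1 : PadicAlgCl p) ^ n * z ^ (n + 1) / ((n : PadicAlgCl p) + 1))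
        (L (1 + z)))
    (K : Type) [Field K] [NumberField K] (σ : K →+* PadicAlgCl p)
    (k δ N D m : ℕ) (B : ℝ) (hD : ¬ p ∣ D) (hDB : (D : ℝ) ≤ B)
    (t : Fin k → K) (ht0 : ∀ i, t i ≠ 0) (htinj : Function.Injective t)
    (hti : ∀ i, IsIntegral ℤ (t i)) (htB : ∀ (φ : K →+* ℂ) i, ‖φ (t i)‖ ≤ B)
    (F : MvPolynomial (Fin k) K) (hF0 : F ≠ 0) (hδ : F.totalDegree ≤ δ)
    (hFi : ∀ a, IsIntegral ℤ (MvPolynomial.coeff a F))
    (hFB : ∀ φ : K →+* ℂ, ∑ a ∈ F.support, ‖φ (MvPolynomial.coeff a F)‖ ≤ B)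
    (hm : m = ∑ i ∈ range (δ + 1), k ^ i)
    (hN : (((m : ℝ) * m.factorial) ^ δ * B ^ (m * δ + m + 1)) ^ (Module.finrank ℚ K)
      < (p : ℝ) ^ N) :
    MvPolynomial.eval₂ σ (fun i => L (1 + (p : PadicAlgCl p) ^ N * σ (t i / D))) F ≠ 0 := by
  intro hzero
  apply hF0
  have hD0 : D ≠ 0 := by
    rintro rfl
    exact hD (dvd_zero p)
  have hD1 : (1 : ℝ) ≤ D := by exact_mod_cast Nat.one_le_iff_ne_zero.2 hD0
  have hB : 1 ≤ B := by linarith
  have hδ' := coeff_eq_zero_of_totalDegree_le F δ hδ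
  have hm1 : 1 ≤ m := by
    rw [hm, Finset.sum_range_succ', pow_zero]
    omega
  have hm1r : (1 : ℝ) ≤ m := by exact_mod_cast hm1
  have hfac : (1 : ℝ) ≤ m.factorial := by exact_mod_cast Nat.succ_le_of_lt m.factorial_pos
  set X : ℝ := ((m : ℝ) * m.factorial) ^ δ * B ^ (m * δ + m + 1) with hX
  have hXm : (m : ℝ) ≤ X := by
    have h1 : (m : ℝ) ≤ ((m : ℝ) * m.factorial) ^ δ := by
      rcases Nat.eq_zero_or_pos δ with h0 | h0
      · have : m = 1 := by rw [hm, h0]; simp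
        rw [this, h0]
        simp
      · have h2 : (m : ℝ) ≤ (m : ℝ) * m.factorial := le_mul_of_one_le_right (by linarith) hfac
        have h3 : (1 : ℝ) ≤ (m : ℝ) * m.factorial := by linarith
        exact h2.trans (le_self_pow₀ h3 (by omega))
    have h4 : (1 : ℝ) ≤ B ^ (m * δ + m + 1) := one_le_pow₀ hB
    exact h1.trans (le_mul_of_one_le_right (by positivity) h4)
  have hX1 : 1 ≤ X := hm1r.trans hXm
  have hXd : X ≤ X ^ (Module.finrank ℚ K) :=
    le_self_pow₀ hX1 (Module.finrank_pos (R := ℚ) (M := K)).ne'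
  have hq : (m : ℝ) < (p : ℝ) ^ N := by linarith
  have hq1 : m + 1 ≤ p ^ N := by
    have : m < p ^ N := by exact_mod_cast hq
    omega
  refine core p L hL σ k δ N D hD t ht0 htinj hti F hδ' hFi m hm X ?_ hq1 hN hzero
  intro φ e he
  have hTB : ∀ i, ‖φ (t i / D)‖ ≤ B := by
    intro i
    rw [map_div₀, map_natCast, norm_div, Complex.norm_natCast]
    calc ‖φ (t i)‖ / D ≤ ‖φ (t i)‖ / 1 :=
          div_le_div_of_nonneg_left (norm_nonneg _) one_pos hD1
      _ = ‖φ (t i)‖ := div_one _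
      _ ≤ B := htB φ i
  have h1 := BD_evK φ B (by linarith) m hm1 (fun i => t i / D) hTB δ F hδ' e he
  rw [map_mul, norm_mul, map_natCast, Complex.norm_natCast]
  have h2 : (((m.factorial * D ^ m) ^ δ : ℕ) : ℝ) ≤ (m.factorial : ℝ) ^ δ * B ^ (m * δ) := by
    push_cast
    rw [mul_pow, ← pow_mul]
    exact mul_le_mul_of_nonneg_left (pow_le_pow_left₀ (by positivity) hDB _) (by positivity)
  have h3 : ‖φ (PowerSeries.coeff e (evK (fun i => t i / D) F))‖ ≤
      B * (m : ℝ) ^ δ * B ^ m := by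
    refine h1.trans ?_
    have h4 : B ^ e ≤ B ^ m := pow_le_pow_right₀ hB he.le
    exact mul_le_mul (mul_le_mul_of_nonneg_right (hFB φ) (by positivity)) h4 (by positivity)
      (by positivity)
  calc (((m.factorial * D ^ m) ^ δ : ℕ) : ℝ) *
        ‖φ (PowerSeries.coeff e (evK (fun i => t i / D) F))‖
      ≤ ((m.factorial : ℝ) ^ δ * B ^ (m * δ)) * (B * (m : ℝ) ^ δ * B ^ m) :=
        mul_le_mul h2 h3 (norm_nonneg _) (by positivity)
    _ = X := by
        rw [hX, mul_pow, pow_add, pow_add, pow_one]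
        ring

end Pool.Agent.Results.MP_c50dba_nt.NearOneBounded
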